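import Pool.Agent.Helper84.PH.Defs

/-! piece EX3 for `MP_398e1f_an` -/

open scoped Manifold ContDiff Topology
open Set Filter

noncomputable section

namespace HolPH

section

variable {M : Type*} [TopologicalSpace M] [ChartedSpace C3 M]

/-- the point part of an element of the tangent bundle may be rewritten -/
lemma tb_congr {x x' : M} (h : x = x') (v : C3) :
    (⟨x, v⟩ : TangentBundle I3 M) = ⟨x', v⟩ := by
  subst h; rfl

/-- `mfderiv` of a curve, with plain types -/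
def mf1 (γ : ℂ → M) (s : ℂ) : ℂ →L[ℂ] C3 := mfderiv 𝓘(ℂ, ℂ) I3 γ s

/-- `mfderiv` of a self-map, with plain types -/
def mfM (g : M → M) (y : M) : C3 →L[ℂ] C3 := mfderiv I3 I3 g y

/-- `mfderiv` of a function, with plain types -/
def mfC (F : M → ℂ) (y : M) : C3 →L[ℂ] ℂ := mfderiv I3 𝓘(ℂ, ℂ) F y

/-- the velocity of a flow -/
def vel (φ : ℂ → M → M) (y : M) : C3 := mf1 (fun s => φ s y) 0 (1 : ℂ)

lemma flow_contMDiff {φ : ℂ → M → M}
    (φh : ContMDiff (𝓘(ℂ, ℂ).prod I3) I3 ω (fun p : ℂ × M => φ p.1 p.2)) (y : M) :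
    ContMDiff 𝓘(ℂ, ℂ) I3 ω (fun s => φ s y) :=
  φh.comp (contMDiff_id.prodMk contMDiff_const)

lemma mf1_comp_M {γ : ℂ → M} {g : M → M} {s : ℂ} (hγ : MDifferentiableAt 𝓘(ℂ, ℂ) I3 γ s)
    (hg : MDifferentiableAt I3 I3 g (γ s)) (v : ℂ) :
    mf1 (g ∘ γ) s v = mfM g (γ s) (mf1 γ s v) := by
  have h := (hg.hasMFDerivAt.comp s hγ.hasMFDerivAt).mfderiv
  exact congrArg (fun L : ℂ →L[ℂ] C3 => L v) h

/-- `mfderiv` of a function on `ℂ`, with plain types -/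
def mfL (F : ℂ → ℂ) (s : ℂ) : ℂ →L[ℂ] ℂ := mfderiv 𝓘(ℂ, ℂ) 𝓘(ℂ, ℂ) F s

lemma mfL_comp_C {γ : ℂ → M} {F : M → ℂ} {s : ℂ} (hγ : MDifferentiableAt 𝓘(ℂ, ℂ) I3 γ s)
    (hF : MDifferentiableAt I3 𝓘(ℂ, ℂ) F (γ s)) (v : ℂ) :
    mfL (F ∘ γ) s v = mfC F (γ s) (mf1 γ s v) := by
  have h := (hF.hasMFDerivAt.comp s hγ.hasMFDerivAt).mfderiv
  exact congrArg (fun L : ℂ →L[ℂ] ℂ => L v) h

end

section

variable {M : Type*} [TopologicalSpace M] [ChartedSpace C3 M] [IsManifold I3 ω M]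

/-- the velocity field is continuous -/
lemma continuous_vel {φ : ℂ → M → M} (φ0 : ∀ x, φ 0 x = x)
    (φh : ContMDiff (𝓘(ℂ, ℂ).prod I3) I3 ω (fun p : ℂ × M => φ p.1 p.2)) :
    Continuous (fun y => (⟨y, vel φ y⟩ : TangentBundle I3 M)) := by
  have : IsManifold I3 1 M := IsManifold.of_le (n := ω) le_top
  have : IsManifold (𝓘(ℂ, ℂ).prod I3) 1 (ℂ × M) := inferInstance
  have h1 : Continuous (tangentMap (𝓘(ℂ, ℂ).prod I3) I3 (fun p : ℂ × M => φ p.1 p.2)) :=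
    (φh.of_le le_top : ContMDiff (𝓘(ℂ, ℂ).prod I3) I3 1 _).continuous_tangentMap le_rfl
  have h2 : Continuous (equivTangentBundleProd 𝓘(ℂ, ℂ) ℂ I3 M).symm :=
    (contMDiff_equivTangentBundleProd_symm (n := 0)).continuous
  have h3 : Continuous (fun y : M => ((⟨0, (1 : ℂ)⟩ : TangentBundle 𝓘(ℂ, ℂ) ℂ),
      (⟨y, (0 : C3)⟩ : TangentBundle I3 M))) := by
    refine continuous_const.prodMk ?_
    have h3' : ContMDiff I3 (I3.prod 𝓘(ℂ, C3)) 0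
        (Bundle.zeroSection C3 (TangentSpace I3 : M → Type _)) :=
      Bundle.contMDiff_zeroSection ℂ (TangentSpace I3 : M → Type _)
    exact h3'.continuous
  have h4 := (h1.comp h2).comp h3
  convert h4 using 1
  ext1 y
  set T : (ℂ × C3) →L[ℂ] C3 :=
    mfderiv (𝓘(ℂ, ℂ).prod I3) I3 (fun p : ℂ × M => φ p.1 p.2) (0, y) with hT
  show (⟨y, vel φ y⟩ : TangentBundle I3 M) = ⟨φ 0 y, T ((1 : ℂ), (0 : C3))⟩
  have h5 : vel φ y = T ((1 : ℂ), (0 : C3)) := by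
    have h7 : HasMFDerivAt 𝓘(ℂ, ℂ) (𝓘(ℂ, ℂ).prod I3) (fun s : ℂ => (s, y)) 0
        ((ContinuousLinearMap.id ℂ ℂ).prod (0 : ℂ →L[ℂ] C3)) :=
      (hasMFDerivAt_id (I := 𝓘(ℂ, ℂ)) (0 : ℂ)).prodMk (hasMFDerivAt_const y (0 : ℂ))
    have h8 : MDifferentiableAt (𝓘(ℂ, ℂ).prod I3) I3 (fun p : ℂ × M => φ p.1 p.2) (0, y) :=
      φh.mdifferentiable (by simp) _
    have h9 := (h8.hasMFDerivAt.comp (0 : ℂ) h7).mfderiv
    exact congrArg (fun L : ℂ →L[ℂ] C3 => L 1) h9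
  rw [h5]
  exact (tb_congr (φ0 y) _).symm

lemma flow_mdiffAt {φ : ℂ → M → M}
    (φh : ContMDiff (𝓘(ℂ, ℂ).prod I3) I3 ω (fun p : ℂ × M => φ p.1 p.2)) (y : M) (s : ℂ) :
    MDifferentiableAt 𝓘(ℂ, ℂ) I3 (fun s => φ s y) s :=
  (flow_contMDiff φh y).mdifferentiable (by simp) _

/-- the velocity field is invariant -/
lemma vel_comm {φ : ℂ → M → M} (φ0 : ∀ x, φ 0 x = x)
    (φh : ContMDiff (𝓘(ℂ, ℂ).prod I3) I3 ω (fun p : ℂ × M => φ p.1 p.2)) {g : M → M}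
    (hg : MDifferentiable I3 I3 g) (comm : ∀ s x, φ s (g x) = g (φ s x)) (y : M) :
    vel φ (g y) = mfM g y (vel φ y) := by
  have h1 : (fun s => φ s (g y)) = g ∘ (fun s => φ s y) := by
    ext s; exact comm s y
  unfold vel
  rw [h1, mf1_comp_M (flow_mdiffAt φh y 0) (hg _)]
  show mfM g (φ 0 y) _ = _
  rw [φ0]

/-- the function `y ↦ d(h y)(X y)` is holomorphic -/
lemma mdifferentiable_pairing {φ : ℂ → M → M} (φ0 : ∀ x, φ 0 x = x)
    (φh : ContMDiff (𝓘(ℂ, ℂ).prod I3) I3 ω (fun p : ℂ × M => φ p.1 p.2))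
    (h : M → M → ℂ) (hh : IsLocalPrimitive h) :
    MDifferentiable I3 𝓘(ℂ, ℂ) (fun y => mfC (h y) y (vel φ y)) := by
  intro y0
  have : IsManifold I3 1 M := IsManifold.of_le (n := ω) le_top
  set F : M → ℂ := h y0 with hF
  have hF0 : ContMDiffAt I3 𝓘(ℂ, ℂ) ω F y0 := hh.holo y0
  have hsw : ContMDiff (I3.prod 𝓘(ℂ, ℂ)) I3 ω (fun p : M × ℂ => φ p.2 p.1) :=
    φh.comp (contMDiff_snd.prodMk contMDiff_fst)
  have h1 : ContMDiffAt (I3.prod 𝓘(ℂ, ℂ)) 𝓘(ℂ, ℂ) ω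
      (Function.uncurry (fun (y : M) (s : ℂ) => F (φ s y))) (y0, 0) := by
    have h2 : ContMDiffAt I3 𝓘(ℂ, ℂ) ω F (φ (0 : ℂ) y0) := by rw [φ0]; exact hF0
    exact ContMDiffAt.comp (y0, (0 : ℂ)) (g := F) (f := fun p : M × ℂ => φ p.2 p.1) h2
      hsw.contMDiffAt
  have h2 := ContMDiffAt.mfderiv (I := 𝓘(ℂ, ℂ)) (J := I3) (I' := 𝓘(ℂ, ℂ)) (m := 1) (n := ω)
    (fun (y : M) (s : ℂ) => F (φ s y)) (fun _ => (0 : ℂ)) h1 contMDiffAt_const le_top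
  have h2' : ContMDiffAt I3 𝓘(ℂ, ℂ →L[ℂ] ℂ) 1 (fun y : M => mfL (fun s : ℂ => F (φ s y)) 0) y0 := by
    have h20 := inTangentCoordinates_model_space (I := 𝓘(ℂ, ℂ)) (I' := 𝓘(ℂ, ℂ))
      (fun _ : M => (0 : ℂ)) (fun y : M => F (φ 0 y))
      (fun y : M => mfL (fun s : ℂ => F (φ s y)) 0) y0
    rw [← h20]
    exact h2
  have h3 : MDifferentiableAt I3 𝓘(ℂ, ℂ)
      (fun y : M => mfL (fun s : ℂ => F (φ s y)) 0 1) y0 := by
    have h4 : MDifferentiableAt I3 𝓘(ℂ, ℂ →L[ℂ] ℂ)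
      (fun y : M => mfL (fun s : ℂ => F (φ s y)) 0) y0 :=
      h2'.mdifferentiableAt (by simp)
    have h5 : MDifferentiableAt 𝓘(ℂ, ℂ →L[ℂ] ℂ) 𝓘(ℂ, ℂ)
        (fun L : ℂ →L[ℂ] ℂ => L 1)
        ((fun y : M => mfL (fun s : ℂ => F (φ s y)) 0) y0) :=
      ((ContinuousLinearMap.apply ℂ ℂ (1 : ℂ)).differentiable _).mdifferentiableAt
    exact h5.comp y0 h4
  refine h3.congr_of_eventuallyEq ?_
  have h6 : ∀ᶠ y in 𝓝 y0, ContMDiffAt I3 𝓘(ℂ, ℂ) ω F y := 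
    (contMDiffAt_iff_contMDiffAt_nhds (by simp)).1 hF0
  filter_upwards [h6, hh.compat y0] with y hy1 hy2
  have h7 : mfC (h y) y (vel φ y) = mfC F y (vel φ y) := (hy2 (vel φ y)).symm
  show mfC (h y) y (vel φ y) = mfL (F ∘ (fun s : ℂ => φ s y)) 0 1
  have h9 : MDifferentiableAt I3 𝓘(ℂ, ℂ) F (φ 0 y) := by
    rw [φ0]; exact hy1.mdifferentiableAt (by simp)
  rw [h7, mfL_comp_C (flow_mdiffAt φh y 0) h9]
  show _ = mfC F (φ 0 y) _
  rw [φ0]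
  rfl

/-- a curve with zero derivative is constant -/
lemma const_of_mfderiv_zero {γ : ℂ → M} (hγ : ContMDiff 𝓘(ℂ, ℂ) I3 ω γ)
    (h0 : ∀ s, mf1 γ s = 0) (s t : ℂ) : γ s = γ t := by
  have : IsManifold I3 1 M := IsManifold.of_le (n := ω) le_top
  have hloc : IsLocallyConstant γ := by
    rw [IsLocallyConstant.iff_eventually_eq]
    intro s0
    have h1 : (extChartAt I3 (γ s0)).source ∈ 𝓝 (γ s0) := extChartAt_source_mem_nhds _
    have h2 : γ ⁻¹' (extChartAt I3 (γ s0)).source ∈ 𝓝 s0 := hγ.continuous.continuousAt h1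
    obtain ⟨r, hr, hball⟩ := Metric.mem_nhds_iff.1 h2
    filter_upwards [Metric.ball_mem_nhds s0 hr] with s1 hs1
    have h3 : ∀ s ∈ Metric.ball s0 r, HasFDerivAt (fun s => extChartAt I3 (γ s0) (γ s))
        (0 : ℂ →L[ℂ] C3) s := by
      intro s hs
      have h4 : γ s ∈ (chartAt C3 (γ s0)).source := by
        have := hball hs
        rwa [mem_preimage, extChartAt_source] at this
      have h5 : MDifferentiableAt I3 𝓘(ℂ, C3) (extChartAt I3 (γ s0)) (γ s) :=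
        mdifferentiableAt_extChartAt h4
      have h6 : MDifferentiableAt 𝓘(ℂ, ℂ) I3 γ s := hγ.mdifferentiable (by simp) _
      have h7 := h5.hasMFDerivAt.comp s h6.hasMFDerivAt
      set T : C3 →L[ℂ] C3 := mfderiv I3 𝓘(ℂ, C3) (extChartAt I3 (γ s0)) (γ s) with hT
      have h8 : HasFDerivAt (fun s => extChartAt I3 (γ s0) (γ s)) (T.comp (mf1 γ s)) s :=
        h7.hasFDerivAt
      have h9 : T.comp (mf1 γ s) = 0 := by
        rw [h0 s, ContinuousLinearMap.comp_zero]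
      rw [← h9]
      exact h8
    have h9 : extChartAt I3 (γ s0) (γ s1) = extChartAt I3 (γ s0) (γ s0) := by
      refine (convex_ball s0 r).is_const_of_fderivWithin_eq_zero (𝕜 := ℂ)
        (f := fun s => extChartAt I3 (γ s0) (γ s)) ?_ ?_ hs1 (Metric.mem_ball_self hr)
      · intro s hs
        exact (h3 s hs).differentiableAt.differentiableWithinAt
      · intro s hs
        rw [fderivWithin_of_isOpen Metric.isOpen_ball hs]
        exact (h3 s hs).fderiv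
    exact (extChartAt I3 (γ s0)).injOn (hball hs1) (mem_extChartAt_source _) h9
  exact hloc.apply_eq_of_preconnectedSpace s t

/-- EX3 core: if the `c`-component of the generator vanishes, the action is trivial -/
theorem ex3core {M : Type*} [TopologicalSpace M] [ChartedSpace C3 M] [IsManifold I3 ω M]
    [CompactSpace M] (g : M ≃ₘ^ω⟮I3, I3⟯ M)
    (nc ns nu : TangentBundle I3 M → ℝ) (hsc : Continuous ns)
    (huc : Continuous nu)
    (h0 : ∀ (x : M) (v : TangentSpace I3 x), nc ⟨x, v⟩ = 0 → ns ⟨x, v⟩ = 0 → nu ⟨x, v⟩ = 0 → v = 0)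
    (a b : ℝ) (ha0 : 0 < a) (ha1 : a < 1) (hb : 1 < b)
    (gs : ∀ (x : M) (v : TangentSpace I3 x), ns ⟨g x, mfderiv I3 I3 g x v⟩ = a * ns ⟨x, v⟩)
    (gu : ∀ (x : M) (v : TangentSpace I3 x), nu ⟨g x, mfderiv I3 I3 g x v⟩ = b * nu ⟨x, v⟩)
    (φ : ℂ → M → M) (φ0 : ∀ x, φ 0 x = x) (φadd : ∀ s t x, φ (s + t) x = φ s (φ t x))
    (φh : ContMDiff (𝓘(ℂ, ℂ).prod I3) I3 ω (fun p : ℂ × M => φ p.1 p.2))
    (comm : ∀ s x, φ s (g x) = g (φ s x))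
    (hnc : ∀ y, nc ⟨y, vel φ y⟩ = 0) :
    ∀ s x, φ s x = x := by
  have hX := continuous_vel φ0 φh
  have hgd : MDifferentiable I3 I3 g := g.contMDiff.mdifferentiable (by simp)
  have hXg := vel_comm φ0 φh hgd comm
  -- contracted / expanded functions vanish
  have key : ∀ (N : TangentBundle I3 M → ℝ), Continuous N → ∀ c : ℝ, 0 < c → c ≠ 1 →
      (∀ (x : M) (v : TangentSpace I3 x), N ⟨g x, mfderiv I3 I3 g x v⟩ = c * N ⟨x, v⟩) →
      ∀ y, N ⟨y, vel φ y⟩ = 0 := by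
    intro N hN c hc hc1 hNg y
    have hne : (univ : Set M).Nonempty := ⟨y, mem_univ y⟩
    set F : M → ℝ := fun y => |N ⟨y, vel φ y⟩| with hF
    have hFc : Continuous F := (hN.comp hX).abs
    have hFg : ∀ y, F (g y) = c * F y := by
      intro y
      have h1 : N ⟨g y, vel φ (g y)⟩ = c * N ⟨y, vel φ y⟩ := by
        rw [hXg y]; exact hNg y (vel φ y)
      show |N ⟨g y, vel φ (g y)⟩| = c * |N ⟨y, vel φ y⟩|
      rw [h1, abs_mul, abs_of_pos hc]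
    obtain ⟨y1, _, hy1⟩ := isCompact_univ.exists_isMaxOn hne hFc.continuousOn
    have hmax : ∀ y, F y ≤ F y1 := fun y => hy1 (mem_univ y)
    have hF1 : F y1 = 0 := by
      have hpos : 0 ≤ F y1 := abs_nonneg _
      rcases lt_or_gt_of_ne hc1 with h1 | h1
      · have h2 : F y1 = c * F (g.symm y1) := by
          rw [← hFg]; congr 1; exact (g.apply_symm_apply y1).symm
        have h3 := hmax (g.symm y1)
        nlinarith
      · have h2 := hmax (g y1)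
        rw [hFg] at h2
        nlinarith
    have h1 : F y = 0 := le_antisymm (hF1 ▸ hmax y) (abs_nonneg _)
    exact abs_eq_zero.1 h1
  have hns := key ns hsc a ha0 ha1.ne gs
  have hnu := key nu huc b (by linarith) hb.ne' gu
  have hvel : ∀ y, vel φ y = 0 := fun y => h0 y (vel φ y) (hnc y) (hns y) (hnu y)
  intro s x
  rw [← φ0 x]
  have hconst := const_of_mfderiv_zero (flow_contMDiff φh x) ?_ s 0
  · rw [φ0]; exact hconst.trans (φ0 x)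
  intro t
  -- translate
  have h1 : (fun s => φ s x) = (fun s => φ s (φ t x)) ∘ (fun s => s - t) := by
    ext s
    show φ s x = φ (s - t) (φ t x)
    rw [← φadd, sub_add_cancel]
  ext1
  have h2 : HasMFDerivAt 𝓘(ℂ, ℂ) 𝓘(ℂ, ℂ) (fun s : ℂ => s - t) t (ContinuousLinearMap.id ℂ ℂ) := by
    have : HasFDerivAt (fun s : ℂ => s - t) (ContinuousLinearMap.id ℂ ℂ) t :=
      (hasFDerivAt_id t).sub_const t
    exact this.hasMFDerivAt
  have h3 : MDifferentiableAt 𝓘(ℂ, ℂ) I3 (fun s => φ s (φ t x)) (t - t) :=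
    flow_mdiffAt φh (φ t x) _
  have h4 := (HasMFDerivAt.comp (g := fun s => φ s (φ t x)) (f := fun s : ℂ => s - t) t
    h3.hasMFDerivAt h2).mfderiv
  have h5 : mf1 (fun s => φ s x) t 1 = mf1 (fun s => φ s (φ t x)) (t - t) 1 := by
    rw [h1]
    exact congrArg (fun L : ℂ →L[ℂ] C3 => L 1) h4
  rw [h5, sub_self]
  exact hvel (φ t x)

/-- the same with the generator written with `mfderiv` -/
theorem ex3core' {M : Type*} [TopologicalSpace M] [ChartedSpace C3 M] [IsManifold I3 ω M]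
    [CompactSpace M] (g : M ≃ₘ^ω⟮I3, I3⟯ M)
    (nc ns nu : TangentBundle I3 M → ℝ) (hsc : Continuous ns)
    (huc : Continuous nu)
    (h0 : ∀ (x : M) (v : TangentSpace I3 x), nc ⟨x, v⟩ = 0 → ns ⟨x, v⟩ = 0 → nu ⟨x, v⟩ = 0 → v = 0)
    (a b : ℝ) (ha0 : 0 < a) (ha1 : a < 1) (hb : 1 < b)
    (gs : ∀ (x : M) (v : TangentSpace I3 x), ns ⟨g x, mfderiv I3 I3 g x v⟩ = a * ns ⟨x, v⟩)
    (gu : ∀ (x : M) (v : TangentSpace I3 x), nu ⟨g x, mfderiv I3 I3 g x v⟩ = b * nu ⟨x, v⟩)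
    (φ : ℂ → M → M) (φ0 : ∀ x, φ 0 x = x) (φadd : ∀ s t x, φ (s + t) x = φ s (φ t x))
    (φh : ContMDiff (𝓘(ℂ, ℂ).prod I3) I3 ω (fun p : ℂ × M => φ p.1 p.2))
    (comm : ∀ s x, φ s (g x) = g (φ s x))
    (hX : ∀ x, nc ⟨φ 0 x, mfderiv 𝓘(ℂ, ℂ) I3 (fun s => φ s x) 0 (1 : ℂ)⟩ = 0) :
    ∀ s x, φ s x = x := by
  refine ex3core g nc ns nu hsc huc h0 a b ha0 ha1 hb gs gu φ φ0 φadd φh comm (fun y => ?_)
  have h1 : (⟨φ 0 y, mfderiv 𝓘(ℂ, ℂ) I3 (fun s => φ s y) 0 (1 : ℂ)⟩ : TangentBundle I3 M)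
      = ⟨y, vel φ y⟩ := tb_congr (φ0 y) (vel φ y)
  rw [← h1]
  exact hX y

/-- EX3 -/
theorem ex3 {M : Type*} [TopologicalSpace M] [ChartedSpace C3 M] [IsManifold I3 ω M]
    [T2Space M] [CompactSpace M] [ConnectedSpace M] (g : M ≃ₘ^ω⟮I3, I3⟯ M)
    (nc ns nu : TangentBundle I3 M → ℝ) (hcc : Continuous nc) (hsc : Continuous ns)
    (huc : Continuous nu)
    (h0 : ∀ (x : M) (v : TangentSpace I3 x), nc ⟨x, v⟩ = 0 → ns ⟨x, v⟩ = 0 → nu ⟨x, v⟩ = 0 → v = 0)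
    (a b : ℝ) (ha0 : 0 < a) (ha1 : a < 1) (hb : 1 < b)
    (gs : ∀ (x : M) (v : TangentSpace I3 x), ns ⟨g x, mfderiv I3 I3 g x v⟩ = a * ns ⟨x, v⟩)
    (gu : ∀ (x : M) (v : TangentSpace I3 x), nu ⟨g x, mfderiv I3 I3 g x v⟩ = b * nu ⟨x, v⟩)
    (h : M → M → ℂ) (hh : IsLocalPrimitive h)
    (hz : ∃ x, ∀ v : TangentSpace I3 x, (mfderiv I3 𝓘(ℂ, ℂ) (h x) x v : ℂ) = 0)
    (hd : Dense {x : M | ∀ v : TangentSpace I3 x,
      (mfderiv I3 𝓘(ℂ, ℂ) (h x) x v : ℂ) = 0 → nc ⟨x, v⟩ = 0})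
    (φ : ℂ → M → M) (φ0 : ∀ x, φ 0 x = x) (φadd : ∀ s t x, φ (s + t) x = φ s (φ t x))
    (φh : ContMDiff (𝓘(ℂ, ℂ).prod I3) I3 ω (fun p : ℂ × M => φ p.1 p.2))
    (comm : ∀ s x, φ s (g x) = g (φ s x)) :
    ∀ s x, φ s x = x := by
  have hX := continuous_vel φ0 φh
  -- the pairing vanishes
  have hw := mdifferentiable_pairing φ0 φh h hh
  obtain ⟨x0, hx0⟩ := hz
  have hw0 : ∀ y, mfC (h y) y (vel φ y) = 0 := by
    intro y
    rw [hw.apply_eq_of_compactSpace (I := I3) y x0]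
    exact hx0 (vel φ x0)
  refine ex3core g nc ns nu hsc huc h0 a b ha0 ha1 hb gs gu φ φ0 φadd φh comm ?_
  have hcl : IsClosed {y : M | nc ⟨y, vel φ y⟩ = 0} :=
    isClosed_eq (hcc.comp hX) continuous_const
  have hsub : {x : M | ∀ v : TangentSpace I3 x,
    (mfderiv I3 𝓘(ℂ, ℂ) (h x) x v : ℂ) = 0 → nc ⟨x, v⟩ = 0} ⊆ {y : M | nc ⟨y, vel φ y⟩ = 0} :=
    fun y hy => hy (vel φ y) (hw0 y)
  have h1 : {y : M | nc ⟨y, vel φ y⟩ = 0} = univ := by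
    rw [← hcl.closure_eq]
    exact (hd.mono hsub).closure_eq
  intro y
  have : y ∈ {y : M | nc ⟨y, vel φ y⟩ = 0} := by rw [h1]; exact mem_univ y
  exact this

end

end HolPH
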